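import Pool.Agent.Work.MP_ba58b9_gt.Stmts

/-!
# H5: one step for stages
-/

set_option autoImplicit false

open Set Filter Topology Ordinal

namespace Pool.Agent.Work.MP_ba58b9_gt

namespace H5

variable {M : Set Om} {N : Set Om} {ι : M → M} {h : M ≃ₜ N}

/-- The embedding of the new space in the space of filters. -/
def emb (h : M ≃ₜ N) : M → Om := fun x => (h x : Om)

theorem emb_inj : Function.Injective (emb h) := fun _ _ e =>
  h.injective (Subtype.ext e)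

theorem isEmbedding_emb : IsEmbedding (emb h) :=
  IsEmbedding.subtypeVal.comp h.isEmbedding

theorem range_emb : range (emb h) = N := by
  ext p
  constructor
  · rintro ⟨x, rfl⟩
    exact (h x).2
  · intro hp
    refine ⟨h.symm ⟨p, hp⟩, ?_⟩
    simp [emb]

theorem mem_M_iff (hι : ∀ m : M, emb h (ι m) = (m : Om)) (y : M) :
    emb h y ∈ M ↔ y ∈ range ι := by
  constructor
  · intro hy
    refine ⟨⟨emb h y, hy⟩, ?_⟩
    apply emb_inj (h := h)
    rw [hι]
  · rintro ⟨m, rfl⟩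
    rw [hι]
    exact m.2

theorem image_inter (hι : ∀ m : M, emb h (ι m) = (m : Om)) (S : Set M) :
    emb h '' S ∩ M = Subtype.val '' (ι ⁻¹' S) := by
  ext p
  constructor
  · rintro ⟨⟨y, hy, rfl⟩, hM⟩
    obtain ⟨m, rfl⟩ := (mem_M_iff hι y).1 hM
    exact ⟨m, hy, (hι m).symm⟩
  · rintro ⟨m, hm, rfl⟩
    refine ⟨⟨ι m, hm, hι m⟩, m.2⟩

theorem image_image (hι : ∀ m : M, emb h (ι m) = (m : Om)) {T : Set Om} (hT : T ⊆ M) :
    emb h '' (ι '' (Subtype.val ⁻¹' T)) = T := by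
  ext p
  constructor
  · rintro ⟨_, ⟨m, hm, rfl⟩, rfl⟩
    rw [hι]
    exact hm
  · intro hp
    exact ⟨_, ⟨⟨p, hT hp⟩, hp, rfl⟩, hι _⟩

theorem eq_side (hι : ∀ m : M, emb h (ι m) = (m : Om)) {A : Set Om} (hA : A ⊆ M) {A' : Set M}
    (he : ι ⁻¹' A' = Subtype.val ⁻¹' A) : emb h '' A' ∩ M = A := by
  rw [image_inter hι, he, Subtype.image_preimage_coe]
  exact inter_eq_right.mpr hA

theorem ref_side (hι : ∀ m : M, emb h (ι m) = (m : Om)) {U : Set Om} {U' : Set M}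
    (he : ι ⁻¹' U' ⊆ Subtype.val ⁻¹' U) : emb h '' U' ∩ M ⊆ U := by
  rw [image_inter hι]
  rintro _ ⟨m, hm, rfl⟩
  exact he hm

theorem nb_side (hι : ∀ m : M, emb h (ι m) = (m : Om)) {U : Set Om} {A' : Set M}
    (hn : A' \ range ι ⊆ interior (ι '' (Subtype.val ⁻¹' U) ∪ (range ι)ᶜ)) :
    ∀ p ∈ emb h '' A' \ M, ∃ G : Set Om, IsOpen G ∧ p ∈ G ∧ G ∩ M ⊆ U := by
  rintro _ ⟨⟨y, hy, rfl⟩, hM⟩
  have hyr : y ∉ range ι := fun hr => hM ((mem_M_iff hι y).2 hr)
  have hyi := hn ⟨hy, hyr⟩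
  obtain ⟨G, hG, hGI⟩ := (isEmbedding_emb (h := h)).isInducing.isOpen_iff.1
    (isOpen_interior (s := ι '' (Subtype.val ⁻¹' U) ∪ (range ι)ᶜ))
  refine ⟨G, hG, ?_, ?_⟩
  · have : y ∈ emb h ⁻¹' G := by rw [hGI]; exact hyi
    exact this
  · rintro q ⟨hqG, hqM⟩
    have hz : ι ⟨q, hqM⟩ ∈ emb h ⁻¹' G := by
      change emb h (ι ⟨q, hqM⟩) ∈ G
      rw [hι]
      exact hqG
    rw [hGI] at hz
    rcases interior_subset hz with hz | hz
    · obtain ⟨m, hm, hme⟩ := hz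
      have : emb h (ι m) = emb h (ι ⟨q, hqM⟩) := by rw [hme]
      rw [hι, hι] at this
      have hmU : (m : Om) ∈ U := hm
      rw [this] at hmU
      exact hmU
    · exact absurd (mem_range_self _) hz

theorem new_side (hι : ∀ m : M, emb h (ι m) = (m : Om)) {A' : Set M}
    (hne : (A' \ range ι).Nonempty) : (emb h '' A' \ M).Nonempty := by
  obtain ⟨y, hy, hyr⟩ := hne
  exact ⟨emb h y, ⟨y, hy, rfl⟩, fun hM => hyr ((mem_M_iff hι y).1 hM)⟩

theorem cl_side (hι : ∀ m : M, emb h (ι m) = (m : Om)) {A' : Set M} {U' : ℕ → Set M}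
    {T : Set Om} (hT : T ⊆ M)
    (hc : A' \ range ι ⊆ closure (ι '' (Subtype.val ⁻¹' T)) ∨
      ∃ n, Disjoint (ι '' (Subtype.val ⁻¹' T)) (U' n)) :
    emb h '' A' \ M ⊆ closure T ∨ ∃ n, Disjoint T (emb h '' U' n) := by
  rcases hc with hc | ⟨n, hn⟩
  · left
    rintro _ ⟨⟨y, hy, rfl⟩, hM⟩
    have hyr : y ∉ range ι := fun hr => hM ((mem_M_iff hι y).2 hr)
    have h1 := hc ⟨hy, hyr⟩
    have h2 := image_closure_subset_closure_image (isEmbedding_emb (h := h)).continuous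
      (mem_image_of_mem (emb h) h1)
    rwa [image_image hι hT] at h2
  · right
    refine ⟨n, ?_⟩
    have h2 := (disjoint_image_iff (emb_inj (h := h))).2 hn
    rwa [image_image hι hT] at h2

theorem rc_side (hι : ∀ m : M, emb h (ι m) = (m : Om)) {T : Set Om} (hT : T ⊆ M)
    (hr : ¬ RC Set.univ (Subtype.val ⁻¹' T : Set M) →
      ¬ RC Set.univ (ι '' (Subtype.val ⁻¹' T : Set M))) (hM : ¬ RC M T) : ¬ RC N T := by
  rintro ⟨C, hC, hCN, hTC⟩
  refine hr ?_ ?_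
  · rintro ⟨C', hC', -, hTC'⟩
    refine hM ⟨Subtype.val '' C', hC'.image continuous_subtype_val, ?_, ?_⟩
    · rintro _ ⟨m, -, rfl⟩
      exact m.2
    · intro p hp
      exact ⟨⟨p, hT hp⟩, hTC' hp, rfl⟩
  · refine ⟨emb h ⁻¹' C, ?_, subset_univ _, ?_⟩
    · refine ((isEmbedding_emb (h := h)).isInducing.isCompact_preimage_iff ?_).2 hC
      rw [range_emb]
      exact hCN
    · rintro _ ⟨m, hm, rfl⟩
      change emb h (ι m) ∈ C
      rw [hι]
      exact hTC hm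

end H5

theorem itemH5 (h1 : SStep) (h2 : SEmbed) (h3 : STransport) : SStageStep := by
  intro P hP 𝒯 h𝒯
  have hg := hP.good
  have : T2Space P.M := hg.t2
  have : SecondCountableTopology P.M := hg.sc
  obtain ⟨t', ι, htv, htr, hnA, hnB, hT⟩ := h1 P.M hg.loc P.st hP.st
    ((fun T : Set Om => (Subtype.val ⁻¹' T : Set P.M)) '' 𝒯) (h𝒯.image _)
  obtain ⟨N, h, hN, hMN, hι⟩ := h2 P.M hg P.M hg.loc ι htr.emb htr.dns
  have hι' : ∀ m : P.M, H5.emb h (ι m) = (m : Om) := hι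
  refine ⟨stageOf t' N h, ?_⟩
  refine
    { valid := h3 P.M t' N h htv hN
      trans := ?_
      newA := H5.new_side hι' hnA
      newB := H5.new_side hι' hnB
      clA := fun T hTT hTM => H5.cl_side hι' hTM (hT _ (mem_image_of_mem _ hTT)).1
      clB := fun T hTT hTM => H5.cl_side hι' hTM (hT _ (mem_image_of_mem _ hTT)).2.1
      rcA := fun T hTT hTA => H5.rc_side hι' (hTA.trans hP.subA)
        ((hT _ (mem_image_of_mem _ hTT)).2.2.1 (preimage_mono hTA))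
      rcB := fun T hTT hTB => H5.rc_side hι' (hTB.trans hP.subB)
        ((hT _ (mem_image_of_mem _ hTT)).2.2.2 (preimage_mono hTB)) }
  refine
    { sub := hMN
      eA := H5.eq_side hι' hP.subA htr.eA
      eB := H5.eq_side hι' hP.subB htr.eB
      new := ?_
      refU := ?_
      refV := ?_
      nbA := fun n => H5.nb_side hι' (htr.nbA n)
      nbB := fun n => H5.nb_side hι' (htr.nbB n) }
  · rintro p ⟨hpN, hpM⟩
    have hpN' : p ∈ N := hpN
    rw [← H5.range_emb (h := h)] at hpN'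
    obtain ⟨y, rfl⟩ := hpN'
    have hyr : y ∉ range ι := fun hr => hpM ((H5.mem_M_iff hι' y).2 hr)
    rcases htr.new hyr with hy | hy
    · exact Or.inl ⟨y, hy, rfl⟩
    · exact Or.inr ⟨y, hy, rfl⟩
  · intro n
    obtain ⟨m, hm⟩ := htr.refU n
    exact ⟨m, H5.ref_side hι' hm⟩
  · intro n
    obtain ⟨m, hm⟩ := htr.refV n
    exact ⟨m, H5.ref_side hι' hm⟩

end Pool.Agent.Work.MP_ba58b9_gt
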