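import Pool.Agent.Work.MP_ba58b9_gt.Bd.B02
import Pool.Agent.Work.MP_ba58b9_gt.Bd.B03
import Pool.Agent.Work.MP_ba58b9_gt.Bd.B04
import Pool.Agent.Work.MP_ba58b9_gt.ItemH5

/-!
# Hereditarily countably paracompact manifolds: assembly of the counterexample
-/

set_option autoImplicit false

open Set Filter Topology Ordinal

namespace Pool.Agent.Work.MP_ba58b9_gt

theorem sLoc : SLoc := itemG0
theorem sMoveE : SMoveE := itemG1
theorem sChart : SChart := itemG2
theorem sMove : SMove := itemG3 sMoveE sChart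
theorem sThinLoc : SThinLoc := itemG4
theorem sThinUnion : SThinUnion := itemG5 sThinLoc sChart sLoc
theorem sThinSeg : SThinSeg := itemG6 sThinLoc sChart
theorem sJoin : SJoin := itemG7 sChart sThinSeg sThinUnion
theorem sLim : SLim := itemG8 sLoc
theorem sRecPush : SRecPush := itemG9 sMove sLoc
theorem sPush : SPush := itemG10 sRecPush sLim
theorem sPoints : SPoints := itemG11
theorem sSpine : SSpine := itemG12 sChart sJoin sThinUnion sThinSeg sLoc
theorem sFil : SFil := itemG13 sLoc
theorem sKStep : SKStep := itemG14 sPoints sThinSeg sThinUnion sSpine sPush sFil sLoc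
theorem sReg : SReg := itemG15 sSpine sFil
theorem sATrans : SATrans := itemG16
theorem sStep : SStep := itemH1 sKStep sATrans
theorem sGoodFacts : SGoodFacts := itemH2
theorem sTransport : STransport := itemH3
theorem sEmbed : SEmbed := itemH4 sLoc sGoodFacts
theorem sStageStep : SStageStep := itemH5 sStep sEmbed sTransport
theorem sTransComp : STransComp := itemH6
theorem sSupGood : SSupGood := itemH7 sGoodFacts
theorem sSup : SSup := itemH8 sReg sSupGood sTransComp sGoodFacts
theorem sInit : SInit := itemH9 sReg sTransport sThinSeg sThinUnion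
theorem sRec : SRec := itemH10 sStageStep sSup sInit sTransComp
theorem sBase : SBase := itemC1
theorem sCode : SCode := itemC2
theorem sGuess : SGuess := itemC3
theorem sCand : SCand := itemC4 sBase sCode
theorem sF1 : SF1 := itemF1 sTransComp
theorem sF2 : SF2 := itemF2 sF1 sGoodFacts
theorem sF3 : SF3 := itemF3 sF1 sF2
theorem sF4 : SF4 := itemF4 sCand sF1 sF2 sF3
theorem sF5 : SF5 := itemF5 sF1 sF2 sF3 sF4
theorem sF6 : SF6 := itemF6 sCand sBase sGuess sF1 sF2 sF3
theorem sF7 : SF7 := itemF7 sLoc sF1 sF2 sF3 sF5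
theorem sMet : SMet := itemF8
theorem sF9 : SF9 := itemF9 sMet sLoc sF1 sF2 sF3 sF6 sF7
theorem sF10 : SF10 := itemF10 sF1 sF3 sF4

/-- The counterexample under the diamond principle. -/
theorem counterexample (h : Diamond) : ∃ (X : Type) (_ : TopologicalSpace X), T2Space X ∧
    ConnectedSpace X ∧ TopologicalSpace.SeparableSpace X ∧ LocE X ∧
    (∀ S : Set X, CPara S) ∧ ¬ NormalSpace X := by
  obtain ⟨D, hD⟩ := h
  obtain ⟨S, hS⟩ := sRec D
  obtain ⟨h1, h2, h3, h4, -⟩ := sF2 D S hS
  exact ⟨Minf S, inferInstance, h1, h2, h3, h4, sF9 D S hD hS, sF10 D S hD hS⟩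

end Pool.Agent.Work.MP_ba58b9_gt
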