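import Mathlib

/-!
# Hereditarily countably paracompact manifolds: definitions

The construction lives in `Om = Filter E3` (Mathlib topology on filters): a space `M` containing
`E3` as a dense subspace is represented by the set of traces on `E3` of its neighbourhood filters.
-/

set_option autoImplicit false

open Set Filter Topology Ordinal

namespace Pool.Agent.Work.MP_ba58b9_gt

/-! ## The statement -/

/-- Euclidean 3-space. -/
abbrev E3 : Type := EuclideanSpace ℝ (Fin 3)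

/-- `X` is locally homeomorphic to `ℝ³`. -/
def LocE (X : Type) [TopologicalSpace X] : Prop :=
  ∀ x : X, ∃ U : Set X, IsOpen U ∧ x ∈ U ∧ Nonempty (U ≃ₜ E3)

/-- `X` is countably paracompact: every countable open cover has a locally finite open
refinement. -/
def CPara (X : Type) [TopologicalSpace X] : Prop :=
  ∀ u : ℕ → Set X, (∀ k, IsOpen (u k)) → (⋃ k, u k) = Set.univ →
    ∃ (ι : Type) (v : ι → Set X), (∀ i, IsOpen (v i)) ∧ (⋃ i, v i) = Set.univ ∧ LocallyFinite v ∧
      ∀ i, ∃ k, v i ⊆ u k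

/-- `C` is a club subset of `ω₁`. -/
def Club (C : Set Ordinal.{0}) : Prop :=
  (∀ α ∈ C, α < ω₁) ∧ (∀ β < ω₁, ∃ γ ∈ C, β < γ) ∧
    ∀ δ < ω₁, δ ≠ 0 → (∀ β < δ, ∃ γ ∈ C, β < γ ∧ γ < δ) → δ ∈ C

/-- `D` is a diamond sequence: every subset of `ω₁` is guessed at some point of every club. -/
def DiamondSeq (D : Ordinal.{0} → Set Ordinal.{0}) : Prop :=
  ∀ X C : Set Ordinal.{0}, Club C → ∃ α ∈ C, X ∩ Iio α = D α ∩ Iio α

/-- Jensen's diamond principle on `ω₁`. -/
def Diamond : Prop := ∃ D : Ordinal.{0} → Set Ordinal.{0}, DiamondSeq D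

/-! ## Thin sets -/

/-- A closed set with empty interior which does not disconnect any connected open set. -/
def Thin {X : Type} [TopologicalSpace X] (A : Set X) : Prop :=
  IsClosed A ∧ interior A = ∅ ∧ ∀ V : Set X, IsOpen V → IsPreconnected V → IsPreconnected (V \ A)

/-! ## States on an abstract space -/

/-- The data of a state: two closed sets and two decreasing sequences of open sets. -/
structure St (X : Type) where
  A : Set X
  B : Set X
  U : ℕ → Set X
  V : ℕ → Set X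

/-- Exchange the two sides. -/
def St.swap {X : Type} (s : St X) : St X := ⟨s.B, s.A, s.V, s.U⟩

/-- `U` is an end of `X` around the closed set `A`. -/
structure EndAt {X : Type} [TopologicalSpace X] (A : Set X) (U : ℕ → Set X) : Prop where
  opn : ∀ n, IsOpen (U n)
  conn : ∀ n, IsConnected (U n)
  reg : ∀ n, closure (U (n + 1)) ⊆ U n
  esc : ∀ C : Set X, IsCompact C → ∃ n, Disjoint C (U n)
  cpt : ∀ n, IsCompact (A \ U n)
  meet : ∀ n, (A ∩ U n).Nonempty

/-- The invariants of the construction. -/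
structure St.Valid {X : Type} [TopologicalSpace X] (s : St X) : Prop where
  clA : IsClosed s.A
  clB : IsClosed s.B
  dAB : Disjoint s.A s.B
  endA : EndAt s.A s.U
  endB : EndAt s.B s.V
  dBU : Disjoint s.B (s.U 0)
  dAV : Disjoint s.A (s.V 0)
  join : ∀ n, (s.U n ∩ s.V n).Nonempty

/-- Transition from a state on `X` to a state on `Y` along an open dense embedding. -/
structure ATrans {X Y : Type} [TopologicalSpace X] [TopologicalSpace Y]
    (s : St X) (t : St Y) (ι : X → Y) : Prop where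
  emb : IsOpenEmbedding ι
  dns : DenseRange ι
  eA : ι ⁻¹' t.A = s.A
  eB : ι ⁻¹' t.B = s.B
  new : (range ι)ᶜ ⊆ t.A ∪ t.B
  refU : ∀ n, ∃ m, ι ⁻¹' (t.U m) ⊆ s.U n
  refV : ∀ n, ∃ m, ι ⁻¹' (t.V m) ⊆ s.V n
  nbA : ∀ n, t.A \ range ι ⊆ interior (ι '' s.U n ∪ (range ι)ᶜ)
  nbB : ∀ n, t.B \ range ι ⊆ interior (ι '' s.V n ∪ (range ι)ᶜ)

/-- `T` is contained in a compact subset of the subset `M`. -/
def RC {X : Type} [TopologicalSpace X] (M T : Set X) : Prop :=
  ∃ C : Set X, IsCompact C ∧ C ⊆ M ∧ T ⊆ C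

/-! ## Stages in the space of filters -/

/-- The ambient space: filters on `ℝ³`. -/
abbrev Om : Type := Filter E3

/-- A stage: a set `M` of filters together with a state on it. -/
structure Stage where
  M : Set Om
  A : Set Om
  B : Set Om
  U : ℕ → Set Om
  V : ℕ → Set Om

/-- `M` is a connected second countable Hausdorff 3-manifold containing `ℝ³` as a dense open
subset, whose points are represented by the traces of their neighbourhood filters. -/
structure Good (M : Set Om) : Prop where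
  nh : ∀ x : E3, 𝓝 x ∈ M
  neb : ∀ m ∈ M, m.NeBot
  opn : ∀ m ∈ M, ∀ s ∈ m, interior s ∈ m
  t2 : T2Space M
  sc : SecondCountableTopology M
  loc : LocE M

/-- The state on the subspace `M`. -/
def Stage.st (s : Stage) : St s.M :=
  ⟨Subtype.val ⁻¹' s.A, Subtype.val ⁻¹' s.B, fun n => Subtype.val ⁻¹' s.U n,
    fun n => Subtype.val ⁻¹' s.V n⟩

/-- Exchange the two sides of a stage. -/
def Stage.swap (s : Stage) : Stage := ⟨s.M, s.B, s.A, s.V, s.U⟩

/-- The stage on `N` obtained from a state on `X` by a homeomorphism `X ≃ₜ N`. -/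
def stageOf {X : Type} [TopologicalSpace X] (s : St X) (N : Set Om) (h : X ≃ₜ N) : Stage :=
  ⟨N, (fun x => (h x : Om)) '' s.A, (fun x => (h x : Om)) '' s.B,
    fun n => (fun x => (h x : Om)) '' s.U n, fun n => (fun x => (h x : Om)) '' s.V n⟩

/-- The stage is valid: the set of filters is good, and the state on it is valid. -/
structure Stage.Valid (s : Stage) : Prop where
  good : Good s.M
  subA : s.A ⊆ s.M
  subB : s.B ⊆ s.M
  subU : ∀ n, s.U n ⊆ s.M
  subV : ∀ n, s.V n ⊆ s.M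
  st : s.st.Valid

/-- Transition between stages. -/
structure Trans (s t : Stage) : Prop where
  sub : s.M ⊆ t.M
  eA : t.A ∩ s.M = s.A
  eB : t.B ∩ s.M = s.B
  new : t.M \ s.M ⊆ t.A ∪ t.B
  refU : ∀ n, ∃ m, t.U m ∩ s.M ⊆ s.U n
  refV : ∀ n, ∃ m, t.V m ∩ s.M ⊆ s.V n
  nbA : ∀ n, ∀ p ∈ t.A \ s.M, ∃ G : Set Om, IsOpen G ∧ p ∈ G ∧ G ∩ s.M ⊆ s.U n
  nbB : ∀ n, ∀ p ∈ t.B \ s.M, ∃ G : Set Om, IsOpen G ∧ p ∈ G ∧ G ∩ s.M ⊆ s.V n

/-- `t` is obtained from the stage `p` by one step treating the sets of the family `𝒯`. -/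
structure StepRel (p t : Stage) (𝒯 : Set (Set Om)) : Prop where
  valid : t.Valid
  trans : Trans p t
  newA : (t.A \ p.M).Nonempty
  newB : (t.B \ p.M).Nonempty
  clA : ∀ T ∈ 𝒯, T ⊆ p.M → t.A \ p.M ⊆ closure T ∨ ∃ n, Disjoint T (t.U n)
  clB : ∀ T ∈ 𝒯, T ⊆ p.M → t.B \ p.M ⊆ closure T ∨ ∃ n, Disjoint T (t.V n)
  rcA : ∀ T ∈ 𝒯, T ⊆ p.A → ¬ RC p.M T → ¬ RC t.M T
  rcB : ∀ T ∈ 𝒯, T ⊆ p.B → ¬ RC p.M T → ¬ RC t.M T

/-! ## The tower -/

/-- A countable base of the subspace `M` (if there is one), as subsets of the ambient space: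
`M ∩ base M k`, `k ∈ ℕ`, is a base of `M`. -/
def IsBaseOf (M : Set Om) (b : ℕ → Set Om) : Prop :=
  (∀ k, IsOpen (b k)) ∧ ∀ G : Set Om, IsOpen G → ∀ p ∈ G ∩ M, ∃ k, p ∈ b k ∧ b k ∩ M ⊆ G

open Classical in
/-- A choice of a countable base of `M`. -/
noncomputable def base (M : Set Om) : ℕ → Set Om :=
  if h : ∃ b, IsBaseOf M b then h.choose else fun _ => ∅

/-- The relatively closed subset of `M` coded by `c`. -/
noncomputable def decode (M : Set Om) (c : Set ℕ) : Set Om := M \ ⋃ k ∈ c, base M k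

/-- The real number coded by `D ξ`. -/
def realOf (D : Ordinal.{0} → Set Ordinal.{0}) (ξ : Ordinal.{0}) : Set ℕ :=
  {k | (k : Ordinal.{0}) ∈ D ξ}

/-- The `η`-th real number of the guess `D ξ`. -/
def rowOf (D : Ordinal.{0} → Set Ordinal.{0}) (ξ η : Ordinal.{0}) : Set ℕ :=
  {k | ω * η + (k : Ordinal.{0}) ∈ D ξ}

/-- The closed set guessed at `ξ`. -/
noncomputable def guess (D : Ordinal.{0} → Set Ordinal.{0}) (ξ : Ordinal.{0})
    (S : Ordinal.{0} → Stage) : Set Om :=
  ⋃ η, ⋃ (_ : η < ξ), decode (S η).M (rowOf D ξ η)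

/-- The sets treated at step `α`; the family depends only on the stages before `α`. -/
def cand (D : Ordinal.{0} → Set Ordinal.{0}) (α : Ordinal.{0}) (S : Ordinal.{0} → Stage) :
    Set (Set Om) :=
  {T | ∃ β < α, ∃ ξ < α, T = decode (S β).M (realOf D ξ) \ (S β).A ∨
      T = decode (S β).M (realOf D ξ) \ (S β).B} ∪
  {T | ∃ ξ ≤ α, T = guess D ξ S}

/-- A tower of stages of length `ω₁`. -/
def Tower (D : Ordinal.{0} → Set Ordinal.{0}) (S : Ordinal.{0} → Stage) : Prop :=
  ∀ α < ω₁, ∃ P : Stage, P.Valid ∧ P.M = range (nhds : E3 → Om) ∪ ⋃ β, ⋃ (_ : β < α), (S β).M ∧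
    (∀ β < α, Trans (S β) P) ∧ StepRel P (S α) (cand D α S)

/-- The final space. -/
def Minf (S : Ordinal.{0} → Stage) : Set Om := ⋃ α, ⋃ (_ : α < ω₁), (S α).M
/-- The first closed set of the final space. -/
def Ainf (S : Ordinal.{0} → Stage) : Set Om := ⋃ α, ⋃ (_ : α < ω₁), (S α).A
/-- The second closed set of the final space. -/
def Binf (S : Ordinal.{0} → Stage) : Set Om := ⋃ α, ⋃ (_ : α < ω₁), (S α).B

end Pool.Agent.Work.MP_ba58b9_gt
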