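import Pool.Agent.Work.MP_ba58b9_gt.Defs

/-!
# Hereditarily countably paracompact manifolds: statements of the items
-/

set_option autoImplicit false

open Set Filter Topology Ordinal

namespace Pool.Agent.Work.MP_ba58b9_gt

/-! ## G: geometry of locally Euclidean spaces -/

/-- G1: move the centre of the unit ball of `ℝ³`. -/
def SMoveE : Prop :=
  ∀ v : E3, ‖v‖ < 1 → ∃ f : E3 ≃ₜ E3, (∀ x, 1 ≤ ‖x‖ → f x = x) ∧ f 0 = v

/-- G2: small open copies of `ℝ³` around every point. -/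
def SChart : Prop :=
  ∀ (X : Type) [TopologicalSpace X], LocE X → ∀ (x : X) (V : Set X), IsOpen V → x ∈ V →
    ∃ φ : E3 → X, IsOpenEmbedding φ ∧ φ 0 = x ∧ range φ ⊆ V

/-- G0: consequences of local homeomorphism with `ℝ³`. -/
def SLoc : Prop :=
  ∀ (X : Type) [TopologicalSpace X], LocE X → LocallyCompactSpace X ∧ LocallyConnectedSpace X ∧
    (∀ V : Set X, IsOpen V → V.Nonempty → V.Infinite) ∧
    (T2Space X → SecondCountableTopology X → TopologicalSpace.MetrizableSpace X ∧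
      ∃ K : ℕ → Set X, (∀ n, IsCompact (K n)) ∧ (∀ n, K n ⊆ interior (K (n + 1))) ∧
        (⋃ n, K n) = Set.univ)

/-- G3: homogeneity of connected open sets by compactly supported homeomorphisms. -/
def SMove : Prop :=
  ∀ (X : Type) [TopologicalSpace X] [T2Space X], LocE X → ∀ V : Set X, IsOpen V →
    IsPreconnected V → ∀ x ∈ V, ∀ y ∈ V, ∃ (f : X ≃ₜ X) (C : Set X), IsCompact C ∧ C ⊆ V ∧
      (∀ z, z ∉ C → f z = z) ∧ f x = y

/-- G4: thinness is a local property. -/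
def SThinLoc : Prop :=
  ∀ (X : Type) [TopologicalSpace X] (A : Set X), IsClosed A → interior A = ∅ →
    (∀ p ∈ A, ∀ V : Set X, IsOpen V → p ∈ V →
      ∃ b : Set X, IsOpen b ∧ p ∈ b ∧ b ⊆ V ∧ IsPreconnected (b \ A)) → Thin A

/-- G5: unions of two thin sets and locally finite unions of thin sets are thin. -/
def SThinUnion : Prop :=
  (∀ (X : Type) [TopologicalSpace X] (A B : Set X), Thin A → Thin B → Thin (A ∪ B)) ∧
  ∀ (X : Type) [TopologicalSpace X], LocE X → ∀ (ι : Type) (A : ι → Set X), (∀ j, Thin (A j)) →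
    LocallyFinite A → Thin (⋃ j, A j)

/-- G6: segments in charts, and points, are thin. -/
def SThinSeg : Prop :=
  (∀ (X : Type) [TopologicalSpace X] [T2Space X] (φ : E3 → X), IsOpenEmbedding φ →
    ∀ a b : E3, Thin (φ '' segment ℝ a b)) ∧
  ∀ (X : Type) [TopologicalSpace X] [T2Space X], LocE X → ∀ x : X, Thin ({x} : Set X)

/-- G7: thin compact connected sets join the points of a connected open set. -/
def SJoin : Prop :=
  ∀ (X : Type) [TopologicalSpace X] [T2Space X], LocE X → ∀ V : Set X, IsOpen V →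
    IsPreconnected V → ∀ x ∈ V, ∀ y ∈ V, ∃ L : Set X, Thin L ∧ IsCompact L ∧ IsPreconnected L ∧
      L ⊆ V ∧ x ∈ L ∧ y ∈ L

/-- G8: the limit of an infinite composition of compactly supported homeomorphisms going to
infinity. -/
def SLim : Prop :=
  ∀ (X : Type) [TopologicalSpace X] [T2Space X] [SecondCountableTopology X], LocE X →
    ∀ (W : ℕ → Set X), (∀ n, IsOpen (W n)) → Antitone W →
    (∀ C : Set X, IsCompact C → ∃ n, Disjoint C (W n)) →
    ∀ (f : ℕ → X ≃ₜ X) (C : ℕ → Set X) (F : ℕ → X ≃ₜ X), (∀ n, IsCompact (C n)) →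
    (∀ n, C n ⊆ W n) → (∀ n, ∀ x, x ∉ C n → f n x = x) → (∀ x, F 0 x = x) →
    (∀ n x, F (n + 1) x = f n (F n x)) →
    ∃ ι : X → X, IsOpenEmbedding ι ∧ (∀ n, ∀ x, x ∉ W n → ι x = (F n).symm x) ∧
      (∀ p, p ∉ range ι ↔ ∀ n, F n p ∈ W n) ∧ IsClosed (⋃ n, C n) ∧
      (∀ x, x ∉ ⋃ n, C n → ι x = x) ∧ (∀ x ∈ ⋃ n, C n, ι x ∈ ⋃ n, C n) ∧
      (range ι)ᶜ ⊆ ⋃ n, C n ∧
      ∀ n, ∃ K : Set X, IsCompact K ∧ ∀ x, x ∉ K → (F n).symm x = x

/-- G9: the recursion producing the pushes. -/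
def SRecPush : Prop :=
  ∀ (X : Type) [TopologicalSpace X] [T2Space X] [SecondCountableTopology X], LocE X →
    ∀ (W : ℕ → Set X), (∀ n, IsOpen (W n)) → Antitone W →
    (∀ C : Set X, IsCompact C → ∃ n, Disjoint C (W n)) →
    (∀ n, ∀ F : Set X, F.Finite → IsPreconnected (W n \ F)) →
    ∀ (P b : ℕ → Set X), (∀ i n, (P i ∩ W n).Nonempty) → (∀ k, IsOpen (b k)) →
    ∃ (f : ℕ → X ≃ₜ X) (C : ℕ → Set X) (F : ℕ → X ≃ₜ X) (p : X), (∀ n, IsCompact (C n)) ∧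
      (∀ n, C n ⊆ W n) ∧ (∀ n, ∀ x, x ∉ C n → f n x = x) ∧ (∀ x, F 0 x = x) ∧
      (∀ n x, F (n + 1) x = f n (F n x)) ∧ (∀ n, F n p ∈ W n) ∧
      ∀ n k i, k ≤ n → i ≤ n → ((F n) '' b k ∩ W n).Nonempty →
        ∃ t ∈ P i, t ∈ (F (n + 1)) '' b k ∧ ∀ m, n < m → f m t = t

/-- G10: the push theorem. -/
def SPush : Prop :=
  ∀ (X : Type) [TopologicalSpace X] [T2Space X] [SecondCountableTopology X], LocE X →
    ∀ (W : ℕ → Set X), (∀ n, IsOpen (W n)) → Antitone W →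
    (∀ C : Set X, IsCompact C → ∃ n, Disjoint C (W n)) →
    (∀ n, ∀ F : Set X, F.Finite → IsPreconnected (W n \ F)) →
    ∀ P : ℕ → Set X, (∀ i n, (P i ∩ W n).Nonempty) →
    ∃ (ι : X → X) (S : Set X), IsOpenEmbedding ι ∧ (range ι)ᶜ.Nonempty ∧ IsClosed S ∧ S ⊆ W 0 ∧
      (∀ x, x ∉ S → ι x = x) ∧ (∀ x ∈ S, ι x ∈ S) ∧ (range ι)ᶜ ⊆ S ∧
      (∀ i, (range ι)ᶜ ⊆ closure (ι '' P i)) ∧
      ∀ n, ∃ (G : X ≃ₜ X) (C : Set X), IsCompact C ∧ (∀ x, x ∉ C → G x = x) ∧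
        ∀ x, x ∉ W n → ι x = G x

/-- G11: choice of reserved points `r` and target points `t`. -/
def SPoints : Prop :=
  ∀ (X : Type) (T U : ℕ → Set X), Antitone U → (∀ x, ∃ n, x ∉ U n) →
    (∀ i n, (T i ∩ U n).Nonempty) →
    ∃ r t : ℕ → ℕ → X, (∀ i k, r i k ∈ T i ∩ U (i + k)) ∧ (∀ i k, t i k ∈ T i ∩ U (i + k)) ∧
      ∀ i k j l, r i k ≠ t j l

/-- G12: the spine. -/
def SSpine : Prop :=
  ∀ (X : Type) [TopologicalSpace X] [T2Space X] [SecondCountableTopology X], LocE X →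
    ∀ (V : ℕ → Set X) (B Q P : Set X) (w : ℕ → X), (∀ n, IsOpen (V n)) →
    (∀ n, IsPreconnected (V n)) → Antitone V →
    (∀ C : Set X, IsCompact C → ∃ n, Disjoint C (V n)) → IsClosed B →
    (∀ n, IsCompact (B \ V n)) → IsClosed Q → Disjoint B Q → Thin P → Disjoint B P →
    (∀ j, w j ∈ V j \ P) →
    ∃ N L : ℕ → Set X, (∀ j, IsCompact (N j) ∧ IsCompact (L j) ∧ Thin (L j) ∧ N j ⊆ V j \ Q ∧
        L j ⊆ V j \ P ∧ IsPreconnected (N j ∪ L j) ∧ w j ∈ L j ∧ (L j ∩ L (j + 1)).Nonempty) ∧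
      ∀ n, ∃ C : Set X, IsCompact C ∧ B ⊆ C ∪ ⋃ j, ⋃ (_ : n ≤ j), N j

/-- G13: a regular end around a spine. -/
def SFil : Prop :=
  ∀ (X : Type) [TopologicalSpace X] [T2Space X] [SecondCountableTopology X], LocE X →
    ∀ (σ O : ℕ → Set X), (∀ j, IsCompact (σ j)) → (∀ j, IsPreconnected (σ j)) →
    (∀ j, (σ j ∩ σ (j + 1)).Nonempty) → (∀ n, IsOpen (O n)) → Antitone O →
    (∀ C : Set X, IsCompact C → ∃ n, Disjoint C (O n)) → (∀ j, σ j ⊆ O j) →
    ∃ V : ℕ → Set X, ∀ n, IsOpen (V n) ∧ IsConnected (V n) ∧ closure (V (n + 1)) ⊆ V n ∧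
      V n ⊆ O n ∧ ∀ j, n ≤ j → σ j ⊆ V n

/-- G14: one step on the first side. -/
def SKStep : Prop :=
  ∀ (X : Type) [TopologicalSpace X] [T2Space X] [SecondCountableTopology X], LocE X →
    ∀ s : St X, s.Valid → ∀ T : ℕ → Set X, ∃ (t : St X) (ι : X → X), t.Valid ∧ ATrans s t ι ∧
      (range ι)ᶜ.Nonempty ∧ (range ι)ᶜ ⊆ t.A ∧
      ∀ i, (∀ n, (T i ∩ s.U n).Nonempty) →
        (range ι)ᶜ ⊆ closure (ι '' T i) ∧ ∀ n, (ι '' T i ∩ t.U n).Nonempty

/-- G15: a state from raw ends. -/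
def SReg : Prop :=
  ∀ (X : Type) [TopologicalSpace X] [T2Space X] [SecondCountableTopology X], LocE X →
    ∀ (A B : Set X) (U V : ℕ → Set X), IsClosed A → IsClosed B → Disjoint A B → ¬ IsCompact A →
    ¬ IsCompact B → (∀ n, IsOpen (U n)) → (∀ n, IsOpen (V n)) → (∀ n, IsPreconnected (U n)) →
    (∀ n, IsPreconnected (V n)) → Antitone U → Antitone V →
    (∀ C : Set X, IsCompact C → ∃ n, Disjoint C (U n)) →
    (∀ C : Set X, IsCompact C → ∃ n, Disjoint C (V n)) →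
    (∀ n, IsCompact (A \ U n)) → (∀ n, IsCompact (B \ V n)) → Disjoint B (U 0) →
    Disjoint A (V 0) → (∀ n, (U n ∩ V n).Nonempty) →
    ∃ s : St X, s.Valid ∧ s.A = A ∧ s.B = B ∧ (∀ n, s.U n ⊆ U n) ∧ ∀ n, s.V n ⊆ V n

/-! ## H: steps, limits and the tower -/

/-- H1: one step on both sides. -/
def SStep : Prop :=
  ∀ (X : Type) [TopologicalSpace X] [T2Space X] [SecondCountableTopology X], LocE X →
    ∀ s : St X, s.Valid → ∀ 𝒯 : Set (Set X), 𝒯.Countable → ∃ (t : St X) (ι : X → X), t.Valid ∧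
      ATrans s t ι ∧ (t.A \ range ι).Nonempty ∧ (t.B \ range ι).Nonempty ∧
      ∀ T ∈ 𝒯, (t.A \ range ι ⊆ closure (ι '' T) ∨ ∃ n, Disjoint (ι '' T) (t.U n)) ∧
        (t.B \ range ι ⊆ closure (ι '' T) ∨ ∃ n, Disjoint (ι '' T) (t.V n)) ∧
        (T ⊆ s.A → ¬ RC Set.univ T → ¬ RC Set.univ (ι '' T)) ∧
        (T ⊆ s.B → ¬ RC Set.univ T → ¬ RC Set.univ (ι '' T))

/-- G16: transitions compose, and everything is symmetric. -/
def SATrans : Prop :=
  (∀ (X Y Z : Type) [TopologicalSpace X] [TopologicalSpace Y] [TopologicalSpace Z] (s : St X)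
    (t : St Y) (u : St Z) (ι : X → Y) (κ : Y → Z), ATrans s t ι → ATrans t u κ →
      ATrans s u (κ ∘ ι)) ∧
  (∀ (X Y : Type) [TopologicalSpace X] [TopologicalSpace Y] (s : St X) (t : St Y) (ι : X → Y),
    ATrans s t ι → ATrans s.swap t.swap ι) ∧
  ∀ (X : Type) [TopologicalSpace X] (s : St X), s.Valid → s.swap.Valid

/-- H2: basic facts on good sets. -/
def SGoodFacts : Prop :=
  (∀ M : Set Om, (∀ x : E3, (𝓝 x : Om) ∈ M) → (∀ m ∈ M, m.NeBot) →
    (∀ m ∈ M, ∀ s ∈ m, interior s ∈ m) →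
    (ConnectedSpace M ∧ TopologicalSpace.SeparableSpace M ∧
      M ⊆ closure (range (nhds : E3 → Om)) ∧
      (T2Space M ↔ ∀ m ∈ M, ∀ m' ∈ M, m ≠ m' →
        ∃ O O' : Set E3, IsOpen O ∧ IsOpen O' ∧ O ∈ m ∧ O' ∈ m' ∧ Disjoint O O'))) ∧
  ∀ M N : Set Om, Good M → (∀ m ∈ N, m.NeBot) → (∀ m ∈ N, ∀ s ∈ m, interior s ∈ m) →
    T2Space N → M ⊆ N → ∃ G : Set Om, IsOpen G ∧ M = G ∩ N

/-- H3: transport of a valid state to a good set. -/
def STransport : Prop :=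
  ∀ (X : Type) [TopologicalSpace X] (s : St X) (N : Set Om) (h : X ≃ₜ N), s.Valid → Good N →
    (stageOf s N h).Valid

/-- H4: an extension of a good set is represented by a good set. -/
def SEmbed : Prop :=
  ∀ (M : Set Om), Good M → ∀ (Y : Type) [TopologicalSpace Y] [T2Space Y]
    [SecondCountableTopology Y], LocE Y → ∀ ι : M → Y, IsOpenEmbedding ι → DenseRange ι →
    ∃ (N : Set Om) (h : Y ≃ₜ N), Good N ∧ M ⊆ N ∧ ∀ m : M, ((h (ι m) : N) : Om) = (m : Om)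

/-- H5: one step for stages. -/
def SStageStep : Prop :=
  ∀ P : Stage, P.Valid → ∀ 𝒯 : Set (Set Om), 𝒯.Countable → ∃ t : Stage, StepRel P t 𝒯

/-- H6: composition of transitions of stages. -/
def STransComp : Prop :=
  (∀ s : Stage, s.Valid → Trans s s) ∧
  (∀ s t u : Stage, s.Valid → t.Valid → u.Valid → Trans s t → Trans t u → Trans s u) ∧
  (∀ s : Stage, s.Valid → s.swap.Valid) ∧ (∀ s t : Stage, Trans s t → Trans s.swap t.swap) ∧
  ∀ (s t : Stage) (𝒯 : Set (Set Om)), StepRel s t 𝒯 → StepRel s.swap t.swap 𝒯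

/-- H7: increasing unions of good sets. -/
def SSupGood : Prop :=
  ∀ M : ℕ → Set Om, (∀ k, Good (M k)) → Monotone M → Good (⋃ k, M k)

/-- H8: limits of sequences of stages. -/
def SSup : Prop :=
  ∀ s : ℕ → Stage, (∀ k, (s k).Valid) → (∀ k, Trans (s k) (s (k + 1))) →
    ∃ t : Stage, t.Valid ∧ t.M = (⋃ k, (s k).M) ∧ ∀ k, Trans (s k) t

/-- H9: the initial stage. -/
def SInit : Prop := ∃ s : Stage, s.Valid ∧ s.M = range (nhds : E3 → Om)

/-- H10: existence of towers. -/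
def SRec : Prop := ∀ D : Ordinal.{0} → Set Ordinal.{0}, ∃ S : Ordinal.{0} → Stage, Tower D S

/-! ## C: coding -/

/-- C1: bases and codes of relatively closed sets. -/
def SBase : Prop :=
  (∀ M : Set Om, Good M → IsBaseOf M (base M)) ∧
  ∀ M : Set Om, IsBaseOf M (base M) → ∀ T : Set Om, T ⊆ M → closure T ∩ M ⊆ T →
    ∃ c : Set ℕ, decode M c = T

/-- C2: every real is coded. -/
def SCode : Prop :=
  ∀ D : Ordinal.{0} → Set Ordinal.{0}, DiamondSeq D → ∀ c : Set ℕ, ∃ ξ < ω₁, realOf D ξ = c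

/-- C3: guessing `ω₁`-sequences of reals. -/
def SGuess : Prop :=
  ∀ D : Ordinal.{0} → Set Ordinal.{0}, DiamondSeq D → ∀ (g : Ordinal.{0} → Set ℕ)
    (C : Set Ordinal.{0}), Club C → ∃ α ∈ C, ∀ η < α, rowOf D α η = g η

/-- C4: small closed sets are eventually candidates. -/
def SCand : Prop :=
  ∀ (D : Ordinal.{0} → Set Ordinal.{0}) (S : Ordinal.{0} → Stage), DiamondSeq D → Tower D S →
    ∀ β < ω₁, ∀ T : Set Om, T ⊆ (S β).M → closure T ∩ (S β).M ⊆ T →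
      (Disjoint T (S β).A ∨ Disjoint T (S β).B) → ∃ γ < ω₁, ∀ α, γ ≤ α → α < ω₁ → T ∈ cand D α S

/-! ## F: the final space -/

/-- F1: all stages are valid, and there are transitions between them. -/
def SF1 : Prop :=
  ∀ (D : Ordinal.{0} → Set Ordinal.{0}) (S : Ordinal.{0} → Stage), Tower D S →
    (∀ α < ω₁, (S α).Valid) ∧ (∀ β α, β ≤ α → α < ω₁ → Trans (S β) (S α)) ∧
    Tower D (fun α => (S α).swap)

/-- F2: topology of the final space. -/
def SF2 : Prop :=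
  ∀ (D : Ordinal.{0} → Set Ordinal.{0}) (S : Ordinal.{0} → Stage), Tower D S →
    T2Space (Minf S) ∧ ConnectedSpace (Minf S) ∧ TopologicalSpace.SeparableSpace (Minf S) ∧
    LocE (Minf S) ∧ (∀ α < ω₁, ∃ G : Set Om, IsOpen G ∧ (S α).M = G ∩ Minf S) ∧
    ∀ α ≤ ω₁, α ≠ 0 → ∀ C : Set Om, IsCompact C → C ⊆ (⋃ β, ⋃ (_ : β < α), (S β).M) →
      ∃ β < α, C ⊆ (S β).M

/-- F3: the two closed sets of the final space. -/
def SF3 : Prop :=
  ∀ (D : Ordinal.{0} → Set Ordinal.{0}) (S : Ordinal.{0} → Stage), Tower D S →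
    (∀ α < ω₁, Ainf S ∩ (S α).M = (S α).A) ∧ Ainf S ⊆ Minf S ∧
    closure (Ainf S) ∩ Minf S ⊆ Ainf S ∧ Disjoint (Ainf S) (Binf S) ∧
    Minf S \ (S 0).M ⊆ Ainf S ∪ Binf S ∧
    ∀ α < ω₁, ∀ n, ∀ p ∈ Ainf S \ (S α).M, ∃ G : Set Om, IsOpen G ∧ p ∈ G ∧
      G ∩ (S α).M ⊆ (S α).U n

/-- F4: small sets which are closed except for new points of the other side are eventually
disjoint from the end. -/
def SF4 : Prop :=
  ∀ (D : Ordinal.{0} → Set Ordinal.{0}) (S : Ordinal.{0} → Stage), DiamondSeq D → Tower D S →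
    ∀ β < ω₁, ∀ E : Set Om, E ⊆ (S β).M → Disjoint E (S β).A →
      closure E ∩ Minf S ⊆ E ∪ (Binf S \ (S β).M) →
      ∃ γ < ω₁, β ≤ γ ∧ ∀ α, γ ≤ α → α < ω₁ → ∃ n, Disjoint E ((S α).U n)

/-- F5: separation of small sets from one side. -/
def SF5 : Prop :=
  ∀ (D : Ordinal.{0} → Set Ordinal.{0}) (S : Ordinal.{0} → Stage), DiamondSeq D → Tower D S →
    ∀ β < ω₁, ∀ E : Set Om, E ⊆ (S β).M → Disjoint E (S β).A →
      closure E ∩ Minf S ⊆ E ∪ (Binf S \ (S β).M) → ∃ γ < ω₁, ∃ O : Set Om, IsOpen O ∧ E ⊆ O ∧ closure (O ∩ Minf S) ∩ Ainf S ⊆ (S γ).M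

/-- F6: a closed subset of the first closed set is compact or contains a tail of it. -/
def SF6 : Prop :=
  ∀ (D : Ordinal.{0} → Set Ordinal.{0}) (S : Ordinal.{0} → Stage), DiamondSeq D → Tower D S →
    ∀ T : Set Om, T ⊆ Ainf S → closure T ∩ Minf S ⊆ T →
      IsCompact T ∨ ∃ α < ω₁, Ainf S \ (S α).M ⊆ T

/-- F7: a neighbourhood with small closure on one side. -/
def SF7 : Prop :=
  ∀ (D : Ordinal.{0} → Set Ordinal.{0}) (S : Ordinal.{0} → Stage), DiamondSeq D → Tower D S →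
    ∀ β < ω₁, ∀ F : Set Om, F ⊆ Minf S → F ∩ Binf S ⊆ (S β).M →
      IsCompact (closure F ∩ Ainf S) → ∃ γ < ω₁, ∃ O : Set Om, IsOpen O ∧ F ⊆ O ∧
        closure (O ∩ Minf S) ∩ Ainf S ⊆ (S γ).M

/-- F8: a criterion for countable paracompactness. -/
def SMet : Prop :=
  ∀ (Y : Type) [TopologicalSpace Y], (∀ F : ℕ → Set Y, (∀ n, IsClosed (F n)) → Antitone F →
    (⋂ n, F n) = ∅ → ∃ (m : ℕ) (W K : Set Y), IsOpen W ∧ F m ⊆ W ∧ closure W ⊆ K ∧
      TopologicalSpace.MetrizableSpace K) → CPara Y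

/-- F9: the final space is hereditarily countably paracompact. -/
def SF9 : Prop :=
  ∀ (D : Ordinal.{0} → Set Ordinal.{0}) (S : Ordinal.{0} → Stage), DiamondSeq D → Tower D S →
    ∀ Y : Set (Minf S), CPara Y

/-- F10: the final space is not normal. -/
def SF10 : Prop :=
  ∀ (D : Ordinal.{0} → Set Ordinal.{0}) (S : Ordinal.{0} → Stage), DiamondSeq D → Tower D S →
    ¬ NormalSpace (Minf S)

end Pool.Agent.Work.MP_ba58b9_gt
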