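import Pool.Agent.Work.MP_ba58b9_gt.Bd.B01

/-!
# Hereditarily countably paracompact quasi-developable manifolds are metrizable: assembly
-/

set_option autoImplicit false

open Set Filter Topology Ordinal

namespace Pool.Agent.Work.MP_ba58b9_gt

theorem zPress : ZPress := itemZ3 itemZ1
theorem zIso : ZIso := itemZ4 itemZ1 itemZ2 zPress
theorem zMain : ZMain := itemZ7 itemZ1 itemZ2 zPress zIso itemZ5 itemZ6
theorem zChain : ZChain := itemZ8 itemZ2

/-- A connected hereditarily countably paracompact quasi-developable manifold of dimension at least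
two is second countable and metrizable. -/
theorem metrizable_of_qdev (n : ℕ) (hn : 2 ≤ n) (X : Type) [TopologicalSpace X] [T2Space X]
    (hX : LocN n X) (hc : ConnectedSpace X) (hcp : ∀ S : Set X, CPara S)
    (G : ℕ → Set (Set X)) (hG : IsQDev G) :
    SecondCountableTopology X ∧ TopologicalSpace.MetrizableSpace X := by
  have hsc : SecondCountableTopology X := by
    by_contra h
    obtain ⟨U, N, hUN⟩ := zChain n X hX hc h
    exact zMain n hn X hX hcp G hG U N hUN
  exact ⟨hsc, (itemZ2 n X hX).2.2.2.1 hsc⟩

end Pool.Agent.Work.MP_ba58b9_gt
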